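import Pool.Agent.X179.NB.WeylS

/-!
# Einstein six-manifolds: the Euler characteristic and the cube of the Weyl tensor

Let `R` be an algebraic curvature tensor in dimension six with `Ric = 5 κ` (no other assumption; `κ` of
any sign), `W = R - κ U` its Weyl part (`U` the tensor of curvature one) and `gbc` the
Gauss-Bonnet-Chern integrand. Then

`|gbc - 15 κ³ / (8 π³) - κ |W|² / (64 π³)| ≤ 7 |W|³ / (576 √10 π³)`,

with equality, for both signs, for the tensors `κ U + s W₀`, `W₀` the Weyl part of `S³ × S³`. For a closed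
Einstein six-manifold this compares `χ` with `∫ |W|²` and `∫ |W|³`:

* `κ = 0`: `|χ| ≤ 7 / (576 √10 π³) ∫ |W|³`;
* `κ χ ≤ 0` forces `15 |κ|³ vol / 8 + |κ| ∫ |W|² / 64 ≤ 7 / (576 √10) ∫ |W|³`;
* `κ > 0` and `χ ≥ 4` force `∫ |W|³ ≥ 10000` (the volume being at most that of the sphere, by Bishop).
-/

namespace Pool.Agent.Results.MP_ebfab8_gt.WeylCubicBound

open MeasureTheory Pool.Agent.X179.NB
open Pool.Agent.W666.GB (AlgCurv gbc CurvField)
open Pool.Agent.W669.HD (unitT)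

/-- the Ricci tensor is `5 κ` times the inner product -/
def Ein {V : Type} [NormedAddCommGroup V] [InnerProductSpace ℝ V]
    (e : OrthonormalBasis (Fin 3 × Bool) ℝ V) (R : V → V → V → V → ℝ) (κ : ℝ) : Prop :=
  ∀ v w : V, ∑ i, R (e i) v (e i) w = 5 * κ * inner ℝ v w

/-- The bound at a point, and its sharpness for all `κ` and all norms `|ω|` of the Weyl part, with
both signs. -/
def Pointwise : Prop :=
  ∀ (V : Type) [NormedAddCommGroup V] [InnerProductSpace ℝ V]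
    (e : OrthonormalBasis (Fin 3 × Bool) ℝ V) (κ : ℝ),
    (∀ R : V → V → V → V → ℝ, AlgCurv R → Ein e R κ →
      |gbc e R - (15 * κ ^ 3 / (8 * Real.pi ^ 3) + κ / (64 * Real.pi ^ 3) * weylSq e R κ)| ≤
        cW * Real.sqrt (weylSq e R κ) ^ 3) ∧
    ∀ ω : ℝ, ∃ R : V → V → V → V → ℝ, AlgCurv R ∧ Ein e R κ ∧ weylSq e R κ = ω ^ 2 ∧
      gbc e R = 15 * κ ^ 3 / (8 * Real.pi ^ 3) + κ / (64 * Real.pi ^ 3) * ω ^ 2 + cW * ω ^ 3

/-- A field of Einstein tensors with `Ric = 5 κ` on a finite measure space, with integrable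
Gauss-Bonnet-Chern integrand, `|W|²` and `|W|³`. -/
def EinField {M : Type} [MeasurableSpace M] (μ : Measure M) (K : CurvField 3 M) (κ : ℝ) : Prop :=
  (∀ p, Ein (K.e p) (K.R p) κ) ∧ Integrable K.gb μ ∧
    Integrable (fun p => weylSq (K.e p) (K.R p) κ) μ ∧
    Integrable (fun p => Real.sqrt (weylSq (K.e p) (K.R p) κ) ^ 3) μ

/-- `∫ |W|²` -/
noncomputable def W2 {M : Type} [MeasurableSpace M] (μ : Measure M) (K : CurvField 3 M)
    (κ : ℝ) : ℝ := ∫ p, weylSq (K.e p) (K.R p) κ ∂μ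

/-- `∫ |W|³` -/
noncomputable def W3 {M : Type} [MeasurableSpace M] (μ : Measure M) (K : CurvField 3 M)
    (κ : ℝ) : ℝ := ∫ p, Real.sqrt (weylSq (K.e p) (K.R p) κ) ^ 3 ∂μ

/-- The integrated bound (`∫ gb` is the Euler characteristic), and the Ricci-flat case. -/
def Integrated : Prop :=
  ∀ (M : Type) [MeasurableSpace M] (μ : Measure M) [IsFiniteMeasure μ] (K : CurvField 3 M) (κ : ℝ),
    EinField μ K κ →
    |∫ p, K.gb p ∂μ - (15 * κ ^ 3 / (8 * Real.pi ^ 3) * μ.real Set.univ +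
      κ / (64 * Real.pi ^ 3) * W2 μ K κ)| ≤ cW * W3 μ K κ ∧
    (κ = 0 → |∫ p, K.gb p ∂μ| ≤ cW * W3 μ K κ)

/-- `κ χ ≤ 0` forces much curvature. -/
def WrongSign : Prop :=
  ∀ (M : Type) [MeasurableSpace M] (μ : Measure M) [IsFiniteMeasure μ] (K : CurvField 3 M) (κ : ℝ),
    EinField μ K κ → κ * ∫ p, K.gb p ∂μ ≤ 0 →
    15 * |κ| ^ 3 / (8 * Real.pi ^ 3) * μ.real Set.univ + |κ| / (64 * Real.pi ^ 3) * W2 μ K κ ≤
      cW * W3 μ K κ

/-- For `κ > 0`, a volume of at most that of the sphere of curvature `κ`, and `∫ gb ≥ 4`: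
`∫ |W|³ ≥ 10000`. -/
def Gap : Prop :=
  ∀ (M : Type) [MeasurableSpace M] (μ : Measure M) [IsFiniteMeasure μ] (K : CurvField 3 M) (κ : ℝ),
    EinField μ K κ → 0 < κ → κ ^ 3 * μ.real Set.univ ≤ 16 * Real.pi ^ 3 / 15 →
    4 ≤ ∫ p, K.gb p ∂μ → 10000 ≤ W3 μ K κ

/-- The Euler characteristic of Einstein six-manifolds and the cube of the Weyl tensor. -/
theorem result : Pointwise ∧ Integrated ∧ WrongSign ∧ Gap := by
  refine ⟨?_, ?_, ?_, ?_⟩
  · intro V _ _ e κ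
    exact ⟨fun R hR hE => weyl_bound e hR hE, fun ω => weyl_sharp e κ ω⟩
  · intro M _ μ _ K κ hK
    have h := int_weyl K hK.1 hK.2.1 hK.2.2.1 hK.2.2.2
    refine ⟨h, fun h0 => ?_⟩
    subst h0
    simpa [W3] using h
  · intro M _ μ _ K κ hK hs
    exact int_opp K hK.1 hK.2.1 hK.2.2.1 hK.2.2.2 hs
  · intro M _ μ _ K κ hK hκ hvol hχ
    exact int_gap K hκ hK.1 hK.2.1 hK.2.2.1 hK.2.2.2 hvol hχ

end Pool.Agent.Results.MP_ebfab8_gt.WeylCubicBound
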